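import Pool.Agent.H73.LPC.Stmts

/-!
# Board `lpc`, row GEO: from the composition with a proper map to the map
-/

set_option autoImplicit false

open Set Filter Topology MeasureTheory Metric

namespace Pool.LPC

open Pool.PHS

/-- Row GEO. -/
theorem GEO_thm (hID2 : ID2Stmt) (hCNN : CNNStmt) : GEOStmt := by
  intro n D h δ φ F hD hh hδ hδ1 hφ hF hmap heq hFD
  obtain ⟨oB, cB, oH, cH, neH, sHB⟩ := hCNN δ hδ hδ1
  obtain ⟨q, hq⟩ := neH
  obtain ⟨A, hA⟩ : ∃ A : Set (ℂ × ℂ), A = BD δ ∩ φ ⁻¹' D := ⟨_, rfl⟩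
  have oA : IsOpen A := by
    rw [hA]
    exact hφ.continuousOn.isOpen_inter_preimage oB hD
  have sHA : HF δ ⊆ A := by
    rw [hA]
    exact fun p hp => ⟨sHB hp, hmap hp⟩
  obtain ⟨W, hW⟩ : ∃ W : Set (ℂ × ℂ), W = connectedComponentIn A q := ⟨_, rfl⟩
  have oW : IsOpen W := by
    rw [hW]
    exact oA.connectedComponentIn
  have cW : IsPreconnected W := by
    rw [hW]
    exact isPreconnected_connectedComponentIn
  have sHW : HF δ ⊆ W := by
    rw [hW]
    exact cH.subset_connectedComponentIn hq sHA
  have sWA : W ⊆ A := by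
    rw [hW]
    exact connectedComponentIn_subset A q
  have sWB : W ⊆ BD δ := fun p hp => by
    have := sWA hp
    rw [hA] at this
    exact this.1
  have sWD : ∀ p ∈ W, φ p ∈ D := fun p hp => by
    have := sWA hp
    rw [hA] at this
    exact this.2
  have hE : EqOn F (fun p => h (φ p)) W := by
    refine hID2 (Cn n) F (fun p => h (φ p)) W (HF δ) oW cW (hF.mono sWB) ?_ oH sHW ⟨q, hq⟩
      (fun p hp => heq p hp)
    exact hh.hol.comp (hφ.mono sWB) (fun p hp => sWD p hp)
  have key : BD δ ⊆ W := by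
    refine cB.subset_of_closure_inter_subset oW ⟨q, sHB hq, sHW hq⟩ ?_
    rintro p ⟨hp, hpB⟩
    have hpD : φ p ∈ D := by
      obtain ⟨x, hx, hlim⟩ := mem_closure_iff_seq_limit.1 hp
      have c1 : Tendsto (fun i => φ (x i)) atTop (𝓝 (φ p)) :=
        ((hφ.continuousOn.continuousAt (oB.mem_nhds hpB)).tendsto).comp hlim
      have c2 : Tendsto (fun i => F (x i)) atTop (𝓝 (F p)) :=
        ((hF.continuousOn.continuousAt (oB.mem_nhds hpB)).tendsto).comp hlim
      have hL : IsCompact (insert (F p) (range fun i => F (x i))) := c2.isCompact_insert_range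
      have hLD : insert (F p) (range fun i => F (x i)) ⊆ D := by
        intro y hy
        rcases hy with rfl | ⟨i, rfl⟩
        · exact hFD hpB
        · exact hFD (sWB (hx i))
      have hK := hh.proper _ hLD hL
      have hmem : φ p ∈ D ∩ h ⁻¹' (insert (F p) (range fun i => F (x i))) := by
        refine hK.isClosed.mem_of_tendsto c1 (Eventually.of_forall fun i => ?_)
        refine ⟨sWD _ (hx i), ?_⟩
        show h (φ (x i)) ∈ insert (F p) (range fun i => F (x i))
        have h1 : F (x i) = h (φ (x i)) := hE (hx i)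
        rw [← h1]
        exact Or.inr ⟨i, rfl⟩
      exact hmem.1
    have hpA : p ∈ A := by
      rw [hA]
      exact ⟨hpB, hpD⟩
    have oV : IsOpen (connectedComponentIn A p) := oA.connectedComponentIn
    have hpV : p ∈ connectedComponentIn A p := mem_connectedComponentIn hpA
    obtain ⟨x, hxV, hxW⟩ := mem_closure_iff.1 hp _ oV hpV
    have e1 := connectedComponentIn_eq hxV
    rw [hW] at hxW ⊢
    have e2 := connectedComponentIn_eq hxW
    rw [e2, ← e1]
    exact hpV
  exact fun p hp => sWD p (key hp)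

end Pool.LPC
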